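import Mathlib
import Pool.Agent.Helper92.PO.Stmts

/-!
Module CEL of the crew project on MP_c7ded2_lc: the cells in the order of the scan.
-/

set_option autoImplicit false

namespace Pool.Agent.Helper92.PO

theorem cel_aux {α : Type} (F : ℕ → List α) (b : ℕ) (hF : ∀ j, (F j).length = b) (a : ℕ) :
    ((List.range a).flatMap F).length = a * b ∧
      ∀ j < a, ∀ r < b, ((List.range a).flatMap F)[j * b + r]? = (F j)[r]? := by
  induction a with
  | zero =>
    refine ⟨by simp, ?_⟩
    intro j hj
    omega
  | succ a ih =>
    have hs : (List.range (a + 1)).flatMap F = (List.range a).flatMap F ++ F a := by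
      rw [List.range_succ, List.flatMap_append]
      simp
    refine ⟨?_, ?_⟩
    · rw [hs, List.length_append, ih.1, hF]
      ring
    · intro j hj r hr
      rw [hs]
      by_cases h : j < a
      · rw [List.getElem?_append_left]
        · exact ih.2 j h r hr
        · rw [ih.1]
          have h2 : (j + 1) * b ≤ a * b := Nat.mul_le_mul_right b h
          nlinarith
      · have hja : j = a := by omega
        subst hja
        rw [List.getElem?_append_right (by rw [ih.1]; omega), ih.1]
        congr 1
        omega

theorem st_CEL : ST_CEL := by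
  intro n
  have hin : ∀ j y : ℕ, ((List.range (wd n)).map fun u => ((j, y, u) : Cel)).length = wd n := by
    intro j y
    simp
  have h1 := fun j : ℕ => cel_aux (fun y => (List.range (wd n)).map fun u => ((j, y, u) : Cel))
    (wd n) (hin j) (LL n)
  have h2 := cel_aux (fun j => (List.range (LL n)).flatMap fun y =>
    (List.range (wd n)).map fun u => ((j, y, u) : Cel)) (LL n * wd n) (fun j => (h1 j).1) (JJ n)
  have hLL : 0 < LL n := by unfold LL; omega
  refine ⟨?_, ?_⟩
  · unfold cells KK
    rw [h2.1, mul_assoc]
  · intro k hk u hu
    unfold cells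
    have hkq : k / LL n < JJ n := by
      apply Nat.div_lt_of_lt_mul
      rw [mul_comm]
      exact hk
    have hkr : k % LL n < LL n := Nat.mod_lt _ hLL
    have hr : (k % LL n) * wd n + u < LL n * wd n := by
      have h3 : (k % LL n + 1) * wd n ≤ LL n * wd n := Nat.mul_le_mul_right _ hkr
      nlinarith
    have hkk : k * wd n + u = (k / LL n) * (LL n * wd n) + ((k % LL n) * wd n + u) := by
      have h4 : LL n * (k / LL n) + k % LL n = k := Nat.div_add_mod k (LL n)
      calc k * wd n + u = (LL n * (k / LL n) + k % LL n) * wd n + u := by rw [h4]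
        _ = _ := by ring
    rw [hkk, h2.2 _ hkq _ hr, (h1 _).2 _ hkr _ hu]
    simp [hu]

end Pool.Agent.Helper92.PO
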