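import Mathlib
import Pool.Agent.Helper92.PO.Stmts

/-!
Module PCEL of the crew project on MP_c7ded2_lc: the list of the cells is computed in polynomial time.
-/

set_option autoImplicit false

namespace Pool.Agent.Helper92.PO

open Function Pool.Agent.Helper52.Poly

theorem pcel_ub {γ β : Type} [Enc γ] [Enc β] {f : γ → ℕ} (hf : UB f) :
    UB (fun x : γ × β => f x.1) := by
  obtain ⟨h1, Q, hQ⟩ := hf
  refine ⟨h1.comp PF.fst, Q, ?_⟩
  intro x
  refine le_trans (hQ x.1) (pmono Q ?_)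
  obtain ⟨x1, x2⟩ := x
  rw [sz_pair]
  simp only
  omega

theorem st_PCEL (h1 : ST_PRNG) (h2 : ST_PFLM) (h3 : ST_PWD) : ST_PCEL := by
  intro γ _ m hm
  obtain ⟨hwd, -, hJJ, hLL, -⟩ := h3 γ m hm
  have hinner : PF (fun z : (γ × ℕ) × ℕ =>
      (List.range (wd (m z.1.1))).map fun u => ((z.1.2, z.2, u) : Cel)) := by
    have hl : PF (fun z : (γ × ℕ) × ℕ => List.range (wd (m z.1.1))) :=
      h1 _ _ (pcel_ub (β := ℕ) (pcel_ub (β := ℕ) hwd))
    have hh : PF (fun w : ((γ × ℕ) × ℕ) × ℕ => ((w.1.1.2, w.1.2, w.2) : Cel)) :=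
      PF.pair (PF.snd' (PF.fst' PF.fst)) (PF.pair (PF.snd' PF.fst) PF.snd)
    exact PF.map (h := fun w : ((γ × ℕ) × ℕ) × ℕ => ((w.1.1.2, w.1.2, w.2) : Cel)) hl hh
  have hmid : PF (fun x : γ × ℕ => (List.range (LL (m x.1))).flatMap fun y =>
      (List.range (wd (m x.1))).map fun u => ((x.2, y, u) : Cel)) := by
    have hl : PF (fun x : γ × ℕ => List.range (LL (m x.1))) := h1 _ _ (pcel_ub (β := ℕ) hLL)
    exact h2 (γ × ℕ) ℕ Cel _ (fun z : (γ × ℕ) × ℕ =>
      (List.range (wd (m z.1.1))).map fun u => ((z.1.2, z.2, u) : Cel)) hl hinner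
  exact h2 γ ℕ Cel _ (fun x : γ × ℕ => (List.range (LL (m x.1))).flatMap fun y =>
      (List.range (wd (m x.1))).map fun u => ((x.2, y, u) : Cel)) (h1 _ _ hJJ) hmid

end Pool.Agent.Helper92.PO
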